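import Pool.Agent.Lib_helper9.SternProof

/-!
# Rational roots of Stern polynomials

The set of rational roots of all the Stern polynomials `B_n`, `n ≥ 1`, is exactly
`{-1, -1/2, -1/3, 0}`.
-/

open Polynomial Pool.Agent.Lib_helper9.Stern

namespace Pool.Agent.Results.MP_32086b_nt.RationalRoots

theorem result :
    {a : ℚ | ∃ n : ℕ, 1 ≤ n ∧ aeval a (B n) = 0} = {-1, -1 / 2, -1 / 3, 0} :=
  rational_roots

end Pool.Agent.Results.MP_32086b_nt.RationalRoots
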